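import Pool.Agent.Lib.MP_0bd746_co.CohA
import Pool.Agent.Lib.MP_0bd746_co.Winv
import Pool.Agent.Lib.MP_0bd746_co.SortG

/-! # Normal form of the systems with one node with three or more children -/

set_option autoImplicit false

namespace MP0bd746

open Arch PowerSeries

theorem nf_invA (A : Arch) (h : brA A = 0) : invA A = 0 := by
  induction A with
  | nil => rfl
  | cons I R ihI ihR =>
    have h' : (if 3 ≤ I.len then 1 else 0) + brA I + brA R = 0 := h
    show (I.len - 1).choose 2 + invA I + invA R = 0
    have h1 : brA I = 0 := by omega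
    have h2 : brA R = 0 := by omega
    have h3 : ¬ 3 ≤ I.len := by
      intro h3
      rw [if_pos h3] at h'
      omega
    rw [ihI h1, ihR h2, Nat.choose_eq_zero_of_lt (by omega)]

/-- PROOF. Structural induction: `br A = 0` means that all nodes have at most two children. -/
theorem inv_of_br (A : Arch) (h : br A = 0) : inv A = 0 := by
  have h' : (if 3 ≤ A.len then 1 else 0) + brA A = 0 := h
  show (A.len - 1).choose 2 + invA A = 0
  have h1 : brA A = 0 := by omega
  have h3 : ¬ 3 ≤ A.len := by
    intro h3
    rw [if_pos h3] at h'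
    omega
  rw [nf_invA A h1, Nat.choose_eq_zero_of_lt (by omega)]

theorem nf_two {B C : Arch} (hC : br C = 0) :
    Coh (sys [B, C]) (nest (C.size + 2) B) := by
  have h1 : Coh (wrap C) (nest (C.size + 1) nil) := by
    have e : nest (C.size + 1) nil = wrap (nest C.size nil) := by
      rw [nest, nest, Function.iterate_succ_apply']
    rw [e]
    exact Coh.one (coh_binary C hC)
  have h2 := Coh.two (wrap B) nil (a := wrap C) (b := nest (C.size + 1) nil)
    (Or.inr ⟨C, rfl⟩) (Or.inr ⟨nest C.size nil, by rw [nest, nest, Function.iterate_succ_apply']⟩) h1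
  rw [app_nil, app_nil] at h2
  have h3 := coh_merge B (C.size + 1)
  have e3 : nest (C.size + 1) (wrap B) = nest (C.size + 2) B := by
    rw [nest, nest, show C.size + 2 = (C.size + 1) + 1 from rfl, Function.iterate_succ_apply wrap (C.size + 1)]
  rw [e3] at h3
  exact Coh.trans h2 h3

theorem nf_swap (B C : Arch) : Coh (sys [B, C]) (sys [C, B]) :=
  Coh.three nil nil (a := wrap B) (b := wrap C) (Or.inr ⟨B, rfl⟩) (Or.inr ⟨C, rfl⟩)

/-- PROOF. Strong induction on `A.size`, `A = sys L`. If `L.length ≥ 3`, all `B ∈ L` have `br B = 0` (`br_sys`); sort the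
list by `sort_sys` (`d = 0`; `W (sys L') = W (sys L)` as `G` agrees; the size and `inv` of `sys ·` are invariant under
permutations: `size_sys`, `inv_sys`, `inv B = 0` if `br B = 0`: lemma below). `L = [B]`: induction, `W_wrap`, `Coh.one`.
`L = [B, C]`: `br B + br C = 1`; by `Coh.three` and `W_two` (symmetric) let `br B = 1`, `br C = 0`. Then
`wrap C ~ nest (C.size + 1) nil` (`coh_binary`, `Coh.one`), `sys [B, C] ~ (wrap B).app (nest (C.size + 1) nil)
~ nest (C.size + 1) (wrap B) = nest (C.size + 2) B` (`coh_merge`), and induction for `B` (`coh_nest`); `W A =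
X W B * X ^ (C.size + 1)` (`W_two`, `W_binary`). -/
theorem nf (A : Arch) (h : br A = 1) : ∃ (d : ℕ) (L : List Arch), 3 ≤ L.length ∧
    (∀ B ∈ L, br B = 0) ∧ L.Pairwise (fun A B => A.size ≤ B.size) ∧
      Coh A (nest d (sys L)) ∧ W A = X ^ d * W (sys L) ∧ A.size = (sys L).size + d ∧
        inv A = (L.length - 1).choose 2 := by
  induction hn : A.size using Nat.strong_induction_on generalizing A with
  | _ n ih =>
  subst hn
  obtain ⟨L, rfl⟩ := exists_sys A
  -- two atoms
  have key : ∀ B C : Arch, br B = 1 → br C = 0 → B.size < (sys L).size →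
      ∃ (d : ℕ) (M : List Arch), 3 ≤ M.length ∧
      (∀ B ∈ M, br B = 0) ∧ M.Pairwise (fun A B => A.size ≤ B.size) ∧
      Coh (sys [B, C]) (nest d (sys M)) ∧ X * W B * (X * W C) = X ^ d * W (sys M) ∧
        B.size + C.size + 2 = (sys M).size + d ∧ inv B = (M.length - 1).choose 2 := by
    intro B C hB hC hs
    obtain ⟨d, M, h1, h2, h3, h4, h5, h6, h7⟩ := ih B.size hs B hB rfl
    refine ⟨C.size + 2 + d, M, h1, h2, h3, ?_, ?_, by omega, h7⟩
    · have e : nest (C.size + 2 + d) (sys M) = nest (C.size + 2) (nest d (sys M)) := by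
        rw [nest, nest, nest, Function.iterate_add_apply]
      rw [e]
      exact Coh.trans (nf_two hC) (coh_nest _ h4)
    · rw [W_binary C hC, h5]
      ring
  rcases L with _ | ⟨B, _ | ⟨C, _ | ⟨D, L⟩⟩⟩
  · rw [br_sys] at h
    simp at h
  · rw [br_sys] at h
    have hB : br B = 1 := by simpa using h
    have hs : (sys [B]).size = B.size + 1 := by simp [size_sys]
    obtain ⟨d, M, h1, h2, h3, h4, h5, h6, h7⟩ := ih B.size (by omega) B hB rfl
    refine ⟨d + 1, M, h1, h2, h3, ?_, ?_, by omega, ?_⟩
    · have e : nest (d + 1) (sys M) = wrap (nest d (sys M)) := by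
        rw [nest, nest, Function.iterate_succ_apply']
      rw [e]
      exact Coh.one h4
    · have e : W (sys [B]) = X * W B := W_wrap B
      rw [e, h5]
      ring
    · rw [inv_sys, ← h7]
      simp
  · rw [br_sys] at h
    have hBC : br B + br C = 1 := by simpa using h
    have hs : (sys [B, C]).size = B.size + C.size + 2 := by
      simp [size_sys]
      omega
    have hi : inv (sys [B, C]) = inv B + inv C := by
      rw [inv_sys]
      simp
    rcases Nat.eq_zero_or_pos (br C) with hC | hC
    · obtain ⟨d, M, h1, h2, h3, h4, h5, h6, h7⟩ := key B C (by omega) hC (by omega)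
      refine ⟨d, M, h1, h2, h3, h4, ?_, by omega, ?_⟩
      · rw [W_two]
        exact h5
      · rw [hi, inv_of_br C hC, h7]
        rfl
    · obtain ⟨d, M, h1, h2, h3, h4, h5, h6, h7⟩ := key C B (by omega) (by omega) (by omega)
      refine ⟨d, M, h1, h2, h3, Coh.trans (nf_swap B C) h4, ?_, by omega, ?_⟩
      · rw [W_two, mul_comm]
        exact h5
      · rw [hi, inv_of_br B (by omega), h7, Nat.zero_add]
  · rw [br_sys] at h
    rw [if_pos (by simp)] at h
    have hz : ((B :: C :: D :: L).map br).sum = 0 := by omega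
    have hb : ∀ E ∈ B :: C :: D :: L, br E = 0 := by
      intro E hE
      exact List.sum_eq_zero_iff.1 hz _ (List.mem_map.2 ⟨E, hE, rfl⟩)
    obtain ⟨M, hp, hM, hG, hc⟩ := sort_sys (B :: C :: D :: L)
    have hlen := hp.length_eq
    refine ⟨0, M, ?_, ?_, hM, hc, ?_, ?_, ?_⟩
    · rw [hlen]
      simp
    · intro E hE
      exact hb E (hp.subset hE)
    · rw [pow_zero, one_mul, W, W, hh, hh, hG]
    · rw [size_sys, size_sys, Nat.add_zero]
      exact ((hp.map _).sum_eq).symm
    · rw [inv_sys, hlen]
      have hz2 : ((B :: C :: D :: L).map inv).sum = 0 := by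
        rw [List.sum_eq_zero_iff]
        intro x hx
        obtain ⟨E, hE, rfl⟩ := List.mem_map.1 hx
        exact inv_of_br E (hb E hE)
      rw [hz2, Nat.add_zero]

end MP0bd746
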